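import Mathlib

set_option autoImplicit false

open Cardinal

namespace Pool.Agent.Helper864_GV

/-- the family `S` of members of `U` has no subfamily of size `κ` with intersection in `U` -/
def Bad {Y : Type} (κ : Cardinal.{0}) (U : Ultrafilter Y) (S : Set (Set Y)) : Prop :=
  (∀ s ∈ S, s ∈ U) ∧ ∀ T ⊆ S, #T = κ → ⋂₀ T ∉ U

section main
variable {κ : Cardinal.{0}} {X : Type}

/-- sets closed under `f` -/
def Cl (κ : Cardinal.{0}) {X : Type} (f : X → X) : Set {x : Set X // #x < κ} :=
  {x | ∀ a ∈ x.1, f a ∈ x.1}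

theorem cl_mem (U : Ultrafilter {x : Set X // #x < κ})
    (fine : ∀ a : X, {x : {x : Set X // #x < κ} | a ∈ x.1} ∈ U)
    (normal : ∀ f : {x : Set X // #x < κ} → X,
        {x : {x : Set X // #x < κ} | f x ∈ x.1} ∈ U →
        ∃ a : X, {x : {x : Set X // #x < κ} | f x = a} ∈ U) (f : X → X) [Nonempty X] :
    Cl κ f ∈ U := by
  classical
  by_contra h
  have h' : (Cl κ f)ᶜ ∈ U := by
    exact (Ultrafilter.compl_mem_iff_notMem).2 h
  let g : {x : Set X // #x < κ} → X := fun x =>
    if hx : ∃ a ∈ x.1, f a ∉ x.1 then hx.choose else Classical.arbitrary X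
  have hg : ∀ x ∈ (Cl κ f)ᶜ, g x ∈ x.1 ∧ f (g x) ∉ x.1 := by
    intro x hx
    have hx' : ∃ a ∈ x.1, f a ∉ x.1 := by
      by_contra hc
      push Not at hc
      exact hx hc
    simp only [g, dif_pos hx']
    exact hx'.choose_spec
  obtain ⟨a, ha⟩ := normal g (Filter.mem_of_superset h' (fun x hx => (hg x hx).1))
  have := Filter.inter_mem (Filter.inter_mem ha h') (fine (f a))
  obtain ⟨x, ⟨hx1, hx2⟩, hx3⟩ := U.nonempty_of_mem this
  have := (hg x hx2).2
  simp only [Set.mem_ofPred_eq] at hx1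
  rw [hx1] at this
  exact this hx3

/-- key: `κ` many pairwise almost different functions -/
theorem key (hκ : ℵ₀ < κ) (hX : #X = Order.succ κ) (U : Ultrafilter {x : Set X // #x < κ})
    (fine : ∀ a : X, {x : {x : Set X // #x < κ} | a ∈ x.1} ∈ U)
    {ι : Type} (F : ι → X → X) (hι : κ ≤ #ι) (hι' : #ι ≤ κ)
    (hF : ∀ i j, i ≠ j → #{γ | F i γ = F j γ} ≤ κ)
    (A : Set {x : Set X // #x < κ}) (hA : ∀ i, A ⊆ Cl κ (F i)) : A ∉ U := by
  intro hAU
  have hcard : #(⋃ p : {p : ι × ι // p.1 ≠ p.2}, {γ | F p.1.1 γ = F p.1.2 γ}) < #X := by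
    have h1 := Cardinal.mk_iUnion_le (fun p : {p : ι × ι // p.1 ≠ p.2} =>
      {γ | F p.1.1 γ = F p.1.2 γ})
    refine lt_of_le_of_lt h1 ?_
    rw [hX, Order.lt_succ_iff]
    have h2 : #{p : ι × ι // p.1 ≠ p.2} ≤ κ := by
      refine (Cardinal.mk_subtype_le _).trans ?_
      rw [Cardinal.mk_prod, Cardinal.lift_id]
      calc #ι * #ι ≤ κ * κ := mul_le_mul' hι' hι'
        _ = κ := Cardinal.mul_eq_self hκ.le
    have h3 : (⨆ p : {p : ι × ι // p.1 ≠ p.2}, #({γ | F p.1.1 γ = F p.1.2 γ} : Set X)) ≤ κ := by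
      apply ciSup_le'
      rintro ⟨p, hp⟩
      exact hF _ _ hp
    calc _ ≤ κ * κ := mul_le_mul' h2 h3
      _ = κ := Cardinal.mul_eq_self hκ.le
  obtain ⟨γ, hγ⟩ : ∃ γ : X, γ ∉ (⋃ p : {p : ι × ι // p.1 ≠ p.2}, {γ | F p.1.1 γ = F p.1.2 γ}) := by
    by_contra hc
    push Not at hc
    have : (⋃ p : {p : ι × ι // p.1 ≠ p.2}, {γ | F p.1.1 γ = F p.1.2 γ}) = Set.univ :=
      Set.eq_univ_of_forall hc
    rw [this, Cardinal.mk_univ] at hcard
    exact lt_irrefl _ hcard
  have hinj : Function.Injective (fun i => F i γ) := by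
    intro i j hij
    by_contra hne
    apply hγ
    simp only [Set.mem_iUnion, Set.mem_ofPred_eq]
    exact ⟨⟨(i, j), hne⟩, hij⟩
  obtain ⟨x, hx1, hx2⟩ := U.nonempty_of_mem (Filter.inter_mem hAU (fine γ))
  have : #ι ≤ #x.1 := by
    refine Cardinal.mk_le_of_injective (f := fun i => (⟨F i γ, hA i hx1 γ hx2⟩ : x.1)) ?_
    intro i j hij
    simp only [Subtype.mk.injEq] at hij
    exact hinj hij
  exact absurd (hι.trans this) (not_le.2 x.2)

/-- from a family of almost different functions to a bad family of sets -/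
theorem bad_of_family (hκ : ℵ₀ < κ) (hX : #X = Order.succ κ)
    (U : Ultrafilter {x : Set X // #x < κ})
    (fine : ∀ a : X, {x : {x : Set X // #x < κ} | a ∈ x.1} ∈ U)
    (normal : ∀ f : {x : Set X // #x < κ} → X,
        {x : {x : Set X // #x < κ} | f x ∈ x.1} ∈ U →
        ∃ a : X, {x : {x : Set X // #x < κ} | f x = a} ∈ U)
    {ι : Type} (F : ι → X → X) (hι : κ < #ι)
    (hF : ∀ i j, i ≠ j → #{γ | F i γ = F j γ} ≤ κ) :
    Bad κ U (Set.range fun i => Cl κ (F i)) ∧ #(Set.range fun i => Cl κ (F i)) = #ι := by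
  classical
  have hne : Nonempty X := by
    rw [← Cardinal.mk_ne_zero_iff, hX]
    exact (Order.bot_lt_succ κ).ne'
  have hmem : ∀ i, Cl κ (F i) ∈ U := fun i => cl_mem U fine normal (F i)
  refine ⟨⟨?_, ?_⟩, ?_⟩
  · rintro s ⟨i, rfl⟩
    exact hmem i
  · intro T hT hTκ
    choose g hg using fun s : T => hT s.2
    have hginj : Function.Injective g := by
      intro s t hst
      apply Subtype.ext
      rw [← hg s, ← hg t, hst]
    refine key hκ hX U fine (fun s : T => F (g s)) hTκ.ge hTκ.le ?_ _ ?_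
    · intro s t hst
      exact hF _ _ (fun h => hst (hginj h))
    · intro s x hx
      have : x ∈ (fun i => Cl κ (F i)) (g s) := by
        rw [hg s]
        exact hx s.1 s.2
      exact this
  · apply le_antisymm Cardinal.mk_range_le
    set R := Set.range fun i => Cl κ (F i) with hR
    let q : ι → R := Set.rangeFactorization _
    have hfib : ∀ s : R, #{i // q i = s} ≤ κ := by
      intro s
      by_contra hc
      push Not at hc
      obtain ⟨I, hI⟩ := Cardinal.le_mk_iff_exists_set.1 hc.le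
      refine key hκ hX U fine (fun i : I => F i.1.1) hI.ge hI.le ?_ s.1 ?_ ?_
      · intro i j hij
        apply hF
        intro h
        exact hij (Subtype.ext (Subtype.ext h))
      · intro i
        have : Cl κ (F i.1.1) = s.1 := congrArg Subtype.val i.1.2
        rw [this]
      · obtain ⟨i, hi⟩ := s.2
        rw [← hi]
        exact hmem i
    have h1 : #ι = Cardinal.sum (fun s : R => #{i // q i = s}) := by
      rw [← Cardinal.mk_sigma]
      exact (Cardinal.mk_congr (Equiv.sigmaFiberEquiv q)).symm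
    have h2 : #ι ≤ #R * κ := by
      rw [h1]
      refine (Cardinal.sum_le_sum _ (fun _ => κ) hfib).trans ?_
      rw [Cardinal.sum_const']
    by_contra hc
    push Not at hc
    have h3 : #R * κ < #ι := by
      apply Cardinal.mul_lt_of_lt (hκ.le.trans hι.le) hc hι
    exact absurd h2 (not_le.2 h3)

/-- a large family of pairwise almost different functions, by diagonalisation -/
theorem exists_family (hκ : ℵ₀ < κ) (hX : #X = Order.succ κ) :
    ∃ (ι : Type) (F : ι → X → X), #ι = Order.succ (Order.succ κ) ∧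
      ∀ i j, i ≠ j → #{γ | F i γ = F j γ} ≤ κ := by
  classical
  have hinf : ℵ₀ ≤ Order.succ κ := hκ.le.trans (Order.le_succ κ)
  let O := (Order.succ κ).ord.ToType
  have hO : #O = Order.succ κ := Cardinal.mk_ord_toType _
  obtain ⟨e⟩ : Nonempty (X ≃ O) := Cardinal.eq.1 (hX.trans hO.symm)
  let P : Set (Set (X → X)) := {G | ∀ f ∈ G, ∀ g ∈ G, f ≠ g → #{γ | f γ = g γ} ≤ κ}
  obtain ⟨M, hM⟩ : ∃ M, Maximal (· ∈ P) M := by
    apply zorn_subset
    intro c hc hch
    refine ⟨⋃₀ c, ?_, fun s hs => Set.subset_sUnion_of_mem hs⟩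
    rintro f ⟨s, hs, hfs⟩ g ⟨t, ht, hgt⟩ hfg
    rcases hch.total hs ht with h | h
    · exact hc ht f (h hfs) g hgt hfg
    · exact hc hs f hfs g (h hgt) hfg
  have hMbig : Order.succ κ < #M := by
    by_contra hc
    push Not at hc
    -- enumerate M by O
    have hsurj : ∃ g : O → X → X, ∀ m ∈ M, ∃ o, g o = m := by
      rcases M.eq_empty_or_nonempty with rfl | hne
      · exact ⟨fun _ x => x, by simp⟩
      · rw [← hO] at hc
        obtain ⟨φ⟩ := (Cardinal.le_def _ _).1 hc
        obtain ⟨m0, hm0⟩ := hne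
        refine ⟨fun o => if h : ∃ m : M, φ m = o then h.choose.1 else m0, ?_⟩
        intro m hm
        refine ⟨φ ⟨m, hm⟩, ?_⟩
        have hex : ∃ m' : M, φ m' = φ ⟨m, hm⟩ := ⟨_, rfl⟩
        have h0 : hex.choose = ⟨m, hm⟩ := φ.injective hex.choose_spec
        simp only [dif_pos hex]
        rw [h0]
    obtain ⟨g, hg⟩ := hsurj
    have hdiag : ∀ γ : X, ∃ y : X, ∀ o : O, o ≤ e γ → y ≠ g o γ := by
      intro γ
      by_contra hcon
      push Not at hcon
      choose o ho1 ho2 using hcon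
      have hinj : Function.Injective (fun y => (⟨o y, ho1 y⟩ : Set.Iic (e γ))) := by
        intro y z hyz
        have hyz' : o y = o z := congrArg Subtype.val hyz
        rw [ho2 y, ho2 z, hyz']
      have h1 : #X ≤ #(Set.Iic (e γ)) := Cardinal.mk_le_of_injective hinj
      have h2 : #(Set.Iic (e γ)) < Order.succ κ := by
        have h3 : #(Set.Iio (e γ)) < Order.succ κ := by
          have := Cardinal.mk_Iio_toType_ord_lt (e γ)
          exact this
        have h4 : (Set.Iic (e γ)) = insert (e γ) (Set.Iio (e γ)) := by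
          ext a
          simp only [Set.mem_Iic, Set.mem_insert_iff, Set.mem_Iio]
          exact le_iff_eq_or_lt
        rw [h4]
        refine lt_of_le_of_lt (Cardinal.mk_insert_le) ?_
        exact Cardinal.add_lt_of_lt hinf h3 (Cardinal.one_lt_aleph0.trans_le hinf)
      rw [hX] at h1
      exact absurd h2 (not_lt.2 h1)
    choose f hf using hdiag
    have hfa : ∀ m ∈ M, #{γ | f γ = m γ} ≤ κ := by
      intro m hm
      obtain ⟨o, rfl⟩ := hg m hm
      have hsub : {γ | f γ = g o γ} ⊆ e ⁻¹' (Set.Iio o) := by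
        intro γ hγ
        simp only [Set.mem_preimage, Set.mem_Iio]
        by_contra hc
        push Not at hc
        exact hf γ o hc hγ
      refine (Cardinal.mk_le_mk_of_subset hsub).trans ?_
      rw [← Order.lt_succ_iff]
      have h5 : #(e ⁻¹' (Set.Iio o)) ≤ #(Set.Iio o) :=
        Cardinal.mk_preimage_of_injective _ _ e.injective
      exact h5.trans_lt (Cardinal.mk_Iio_toType_ord_lt o)
    have hfM : f ∉ M := by
      intro h
      have := hfa f h
      simp only [Set.ofPred_true, Cardinal.mk_univ, hX] at this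
      exact absurd (Order.lt_succ κ) (not_lt.2 this)
    have hins : insert f M ∈ P := by
      rintro a (rfl | ha) b (rfl | hb) hab
      · exact absurd rfl hab
      · exact hfa b hb
      · have := hfa a ha
        simpa only [eq_comm] using this
      · exact hM.prop a ha b hb hab
    exact hfM (hM.le_of_ge hins (Set.subset_insert f M) (Set.mem_insert f M))
  obtain ⟨I, hI⟩ := Cardinal.le_mk_iff_exists_set.1 (Order.succ_le_of_lt hMbig)
  refine ⟨I, fun i => i.1.1, hI, ?_⟩
  intro i j hij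
  apply hM.prop _ i.1.2 _ j.1.2
  intro h
  exact hij (Subtype.ext (Subtype.ext h))

/-- `2^κ⁺` pairwise almost different functions when `2^κ = κ⁺` -/
theorem exists_family' (hκ : ℵ₀ < κ) (hX : #X = Order.succ κ)
    (h2 : (2 : Cardinal.{0}) ^ κ = Order.succ κ) :
    ∃ (ι : Type) (F : ι → X → X), #ι = (2 : Cardinal.{0}) ^ Order.succ κ ∧
      ∀ i j, i ≠ j → #{γ | F i γ = F j γ} ≤ κ := by
  classical
  have hinf : ℵ₀ ≤ Order.succ κ := hκ.le.trans (Order.le_succ κ)
  let O := (Order.succ κ).ord.ToType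
  have hO : #O = Order.succ κ := Cardinal.mk_ord_toType _
  obtain ⟨e⟩ : Nonempty (X ≃ O) := Cardinal.eq.1 (hX.trans hO.symm)
  have hcode : #(Σ γ : O, Set (Set.Iio γ)) ≤ #X := by
    rw [Cardinal.mk_sigma, hX]
    have : ∀ γ : O, #(Set (Set.Iio γ)) ≤ Order.succ κ := by
      intro γ
      rw [Cardinal.mk_set]
      refine le_trans (Cardinal.power_le_power_left two_ne_zero ?_) h2.le
      rw [← Order.lt_succ_iff]
      exact Cardinal.mk_Iio_toType_ord_lt γ
    refine (Cardinal.sum_le_sum _ (fun _ => Order.succ κ) this).trans ?_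
    rw [Cardinal.sum_const', hO, Cardinal.mul_eq_self hinf]
  obtain ⟨c⟩ := (Cardinal.le_def _ _).1 hcode
  refine ⟨Set O, fun A x => c ⟨e x, {y | y.1 ∈ A}⟩, by rw [Cardinal.mk_set, hO], ?_⟩
  intro A B hAB
  obtain ⟨a, ha⟩ : ∃ a, ¬ (a ∈ A ↔ a ∈ B) := by
    by_contra hc
    push Not at hc
    exact hAB (Set.ext hc)
  have hsub : {γ : X | c ⟨e γ, {y | y.1 ∈ A}⟩ = c ⟨e γ, {y | y.1 ∈ B}⟩} ⊆ e ⁻¹' (Set.Iic a) := by
    intro γ hγ
    simp only [Set.mem_preimage, Set.mem_Iic]
    by_contra hc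
    push Not at hc
    have h3 := c.injective hγ
    have h4 : ({y : Set.Iio (e γ) | y.1 ∈ A}) = {y : Set.Iio (e γ) | y.1 ∈ B} := by
      simpa using h3
    apply ha
    have := Set.ext_iff.1 h4 ⟨a, hc⟩
    simpa using this
  refine (Cardinal.mk_le_mk_of_subset hsub).trans ?_
  rw [← Order.lt_succ_iff]
  refine (Cardinal.mk_preimage_of_injective _ _ e.injective).trans_lt ?_
  have h3 : #(Set.Iio a) < Order.succ κ := Cardinal.mk_Iio_toType_ord_lt a
  have h4 : (Set.Iic a) = insert a (Set.Iio a) := by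
    ext b
    simp only [Set.mem_Iic, Set.mem_insert_iff, Set.mem_Iio]
    exact le_iff_eq_or_lt
  rw [h4]
  refine lt_of_le_of_lt (Cardinal.mk_insert_le) ?_
  exact Cardinal.add_lt_of_lt hinf h3 (Cardinal.one_lt_aleph0.trans_le hinf)

end main

end Pool.Agent.Helper864_GV
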